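import Mathlib
import Pool.Agent.X231.DF.Main

/-!
# Multiple zeta values whose first argument is larger than the others are free up to exponential height

We consider multiple zeta values `ζ(s_1, ..., s_r)`, the first argument at the largest variable, with `s_1` larger than
all other arguments. In the stuffle algebra the products of such words are linearly independent: the word that is
obtained by concatenation in the best order is not a stuffle of any other product. Together with the theorem on
polynomial relations of exponential height (helper files `Pool.Agent.Y760.ZF`, after the subspace theorem) this gives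
their algebraic independence up to exponential height, uniformly in all arguments: for distinct such indices
`w_1, ..., w_k` of bounded depth with first arguments between `n` and `κ n` every nonzero integer polynomial of
bounded degree with coefficients at most `C ^ n` has a value larger than `B ^ (-n)` at `ζ(w_1), ..., ζ(w_k)`, even
modulo combinations of arbitrarily many multiple zeta values with many arguments `≥ 2`.

New helper files: `Pool.Agent.X231.DF`.
-/

set_option autoImplicit false

namespace Pool.Agent.Results.MP_f3dc73_nt.DominantFirstArguments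

/-- `trunc [s_1, ..., s_r] m` is the sum of `∏ n_i ^ (-s_i)` over `m > n_1 > ... > n_r ≥ 1` -/
noncomputable def trunc : List ℕ → ℕ → ℝ
  | [], _ => 1
  | s :: l, m => ∑ j ∈ Finset.Ico 1 m, trunc l j / (j : ℝ) ^ s

/-- the multiple zeta value with the exponents `s_1, ..., s_r` of `n_1 > ... > n_r ≥ 1`; in the notation of the problem
this is `ζ(s_r, ..., s_1)` -/
noncomputable def mzv : List ℕ → ℝ
  | [] => 1
  | s :: l => ∑' m : ℕ, trunc l (m + 1) / ((m + 1 : ℕ) : ℝ) ^ s

/-- the number of arguments `≥ 2` -/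
def height (w : List ℕ) : ℕ := w.countP (fun s => decide (2 ≤ s))

/-- indices `(s, t_2, ..., t_r')` of depth `r' ≤ r` with `n ≤ s ≤ κ n` and `1 ≤ t_i < s` -/
def Dominant (r : ℕ) (κ : ℝ) (n : ℕ) (w : List ℕ) : Prop :=
  ∃ (s : ℕ) (t : List ℕ), w = s :: t ∧ t.length + 1 ≤ r ∧ n ≤ s ∧ (s : ℝ) ≤ κ * n ∧ ∀ x ∈ t, 1 ≤ x ∧ x < s

/-- Let `β_1, ..., β_l` be real algebraic numbers, linearly independent over `ℚ`, let `k`, `r`, `D` be natural numbers,
`κ, C` real and `ε > 0`. There are `B > 1` and `n0` such that for all `n ≥ n0`, all distinct indices `w_1, ..., w_k` with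
`Dominant r κ n w_i`, all integer polynomials `f_1, ..., f_l`, not all zero, of total degree at most `D` with
coefficients of absolute value at most `C ^ n`, all finite sets `H` of nonempty indices of weight at most `κ n` with
first argument `≥ 2` and at least `ε n` arguments `≥ 2`, and all real numbers `b_h`, `|b_h| ≤ C ^ n`:
`|∑ β_j f_j(ζ(w_1), ..., ζ(w_k)) - ∑_H b_h ζ(h)| > B ^ (-n)`. -/
theorem result {l : ℕ} (β : Fin l → ℝ) (hβ : ∀ j, IsAlgebraic ℚ (β j))
    (hli : LinearIndependent ℚ β) (k r D : ℕ) (κ C ε : ℝ) (hε : 0 < ε) :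
    ∃ B : ℝ, 1 < B ∧ ∃ n0 : ℕ, ∀ n : ℕ, n0 ≤ n → ∀ w : Fin k → List ℕ, Function.Injective w →
      (∀ i, Dominant r κ n (w i)) → ∀ f : Fin l → MvPolynomial (Fin k) ℤ,
      (∀ j, (f j).totalDegree ≤ D) → (∀ j m, |(((f j).coeff m : ℤ) : ℝ)| ≤ C ^ n) → (∃ j, f j ≠ 0) →
      ∀ H : Finset (List ℕ), (∀ h ∈ H, h ≠ [] ∧ (∀ m ∈ h, 1 ≤ m) ∧ (∀ s ∈ h.head?, 2 ≤ s) ∧
        (h.sum : ℝ) ≤ κ * n ∧ ε * n ≤ height h) → ∀ b : List ℕ → ℝ, (∀ h ∈ H, |b h| ≤ C ^ n) →
      (B ^ n)⁻¹ < |∑ j, β j * MvPolynomial.aeval (fun i => mzv (w i)) (f j) - ∑ h ∈ H, b h * mzv h| := by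
  have h1 : ∀ l m, trunc l m = Pool.Agent.Y760.ZG.hr l m := by
    intro l
    induction l with
    | nil => intro m; rw [trunc, Pool.Agent.Y760.ZG.hr_nil]
    | cons s l ih =>
      intro m
      rw [trunc, Pool.Agent.Y760.ZG.hr_cons]
      exact Finset.sum_congr rfl fun j _ => by rw [ih]
  have h2 : mzv = Pool.Agent.Y760.ZG.mz := by
    funext l
    cases l with
    | nil => rw [mzv, Pool.Agent.Y760.ZG.mz]
    | cons s l =>
      rw [mzv, Pool.Agent.Y760.ZG.mz]
      exact tsum_congr fun k => by rw [h1]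
  obtain ⟨B, hB, n0, hmain⟩ := Pool.Agent.X231.DF.measureH β hβ hli k r D κ C ε hε
  refine ⟨B, hB, max n0 1, fun n hn w hwi hw f hf hC hne H hH b hb => ?_⟩
  have hn0 : n0 ≤ n := (le_max_left _ _).trans hn
  have hn1 : 1 ≤ n := (le_max_right _ _).trans hn
  rw [h2]
  refine hmain n hn0 w hwi (fun i => ?_) f (fun j m hm i => ?_) hC hne H hH b hb
  · obtain ⟨s, t, hwt, h3, h4, h5, h6⟩ := hw i
    rw [hwt]
    refine ⟨fun x hx => (h6 x hx).2, by rw [List.length_cons]; exact h3, fun m hm => ?_, fun k hk => ?_⟩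
    · rcases List.mem_cons.1 hm with rfl | hm
      · exact ⟨hn1.trans h4, h5⟩
      · obtain ⟨h7, h8⟩ := h6 m hm
        refine ⟨h7, le_trans ?_ h5⟩
        exact_mod_cast h8.le
    · rw [List.head?_cons, Option.mem_some_iff] at hk
      omega
  · refine le_trans ?_ ((MvPolynomial.le_totalDegree hm).trans (hf j))
    rw [Finsupp.sum_fintype _ _ (fun _ => rfl)]
    exact Finset.single_le_sum (f := fun i => m i) (fun _ _ => Nat.zero_le _)
      (Finset.mem_univ i)

end Pool.Agent.Results.MP_f3dc73_nt.DominantFirstArguments
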