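import Mathlib
import Pool.Agent.X90.DJ.Main

/-!
# MP_f3dc73_nt: multiple zeta values with one large argument are algebraically independent over arbitrary constants

By the starting result `AlgebraicRelationHeights` the multiple zeta values `ζ(n + b, l)` with one large argument, in
front of the fixed entries `l` (here the first argument belongs to the largest variable), satisfy no algebraic relation
of bounded degree with integer coefficients at most `C ^ n`, for all large `n`. Here arbitrary constants are admitted: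
let `x_1, …, x_t` be any complex numbers, for example `2 π i` and all the multiple zeta values of weight at most `W`.

Theorem. Let `a_i(s) = b_i + u_(i,1) s_1 + ⋯ + u_(i,k) s_k` be linear forms in `k` variables that are not constant, and
`l_i` lists of positive integers, such that the pairs `(a_i, l_i)`, `i = 1, …, r`, are different. For large `N` and for
all but `K N ^ (k - 1)` of the tuples `s ∈ [N, κ N] ^ k` the numbers `ζ(a_1(s), l_1), …, ζ(a_r(s), l_r)` are
algebraically independent over `ℤ[x_1, …, x_t]` in the following sense: there is no polynomial `P` of total degree at most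
`D` with integer coefficients of absolute value at most `C ^ N` with `P(x, ζ(a_1(s), l_1), …, ζ(a_r(s), l_r)) = 0` and
`P(x, Y) ≠ 0`. Here `C` is arbitrary and `K` depends neither on `C` nor on the numbers `x_j`.

For `k = 1` and the forms `s + b`: all but a bounded number of the `s ∈ [N, κ N]` have this property; this applies to the
`2 ^ (W + 1) - 1` numbers `ζ(s + b, l)` with `b + |l| ≤ W` over the ring generated by `2 π i` and the multiple zeta
values of weight at most `W`. Relations of larger height exist: for even `s` the number `ζ(s + 2)` is a rational multiple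
of `ζ(2) ζ(s)`.

Proof. By `Pool/Agent/X90/DC` (elimination of the constants with the stuffle product at several tuples in general
position) a relation `P(x, ζ(a_i(s), l_i)) = 0` holds for almost all `s` for all families of numbers with the stuffle
product in place of the multiple zeta values, in particular for the monomial quasi-symmetric functions `M(a_i(s), l_i)`
in finitely many complex variables. These are algebraically independent over `ℂ` (`Pool/Agent/X90/DJ/AI`): with one more
variable `y` in front, `M(a, l)` becomes `M(a, l) + y ^ a M(l)`, so the coefficient of `y ^ a`, `a` minimal, of a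
relation `P = 0` is `∑ (∂P/∂Y_i) M(l_i) = 0`, the sum over the `i` with `a_i = a`; the coefficients of the small powers
of further variables remove the letters of the `l_i`, and so `∂P/∂Y_i = 0` on all values; induction on the degree.
-/

set_option autoImplicit false

namespace Pool.Agent.Results.MP_f3dc73_nt.IndependenceOverConstants

/-- `trunc [s_1, ..., s_r] m` is the sum of `∏ n_i ^ (-s_i)` over `m > n_1 > ... > n_r ≥ 1` -/
noncomputable def trunc : List ℕ → ℕ → ℝ
  | [], _ => 1
  | s :: l, m => ∑ j ∈ Finset.Ico 1 m, trunc l j / (j : ℝ) ^ s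

/-- the multiple zeta value `ζ(s_1, ..., s_r)`, the sum of `∏ n_i ^ (-s_i)` over
`n_1 > ... > n_r ≥ 1`; `ζ() = 1` -/
noncomputable def mzv : List ℕ → ℝ
  | [] => 1
  | s :: l => ∑' m : ℕ, trunc l (m + 1) / ((m + 1 : ℕ) : ℝ) ^ s

/-- the value `b + u_1 s_1 + ⋯ + u_k s_k` of the linear form `(b, u)` -/
def form {k : ℕ} (a : ℕ × (Fin k → ℕ)) (s : Fin k → ℕ) : ℕ := a.1 + ∑ j, a.2 j * s j

/-- the polynomial `P(x, Y)` over `ℂ` in the variables `Y` -/
noncomputable def substX {t r : ℕ} (x : Fin t → ℂ) (P : MvPolynomial (Fin t ⊕ Fin r) ℤ) :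
    MvPolynomial (Fin r) ℂ :=
  MvPolynomial.aeval (Sum.elim (fun i => MvPolynomial.C (x i)) MvPolynomial.X) P

/-- there is an integer polynomial `P` of total degree at most `D` with coefficients of absolute
value at most `H` with `P(x, ζ(a_1(s), l_1), …, ζ(a_r(s), l_r)) = 0` and `P(x, Y) ≠ 0` -/
def Dependent {t k r : ℕ} (x : Fin t → ℂ) (a : Fin r → ℕ × (Fin k → ℕ)) (l : Fin r → List ℕ)
    (D : ℕ) (H : ℝ) (s : Fin k → ℕ) : Prop :=
  ∃ P : MvPolynomial (Fin t ⊕ Fin r) ℤ, P.totalDegree ≤ D ∧
    (∀ m, |((P.coeff m : ℤ) : ℝ)| ≤ H) ∧ substX x P ≠ 0 ∧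
    MvPolynomial.aeval (Sum.elim x fun i => ((mzv (form (a i) s :: l i) : ℝ) : ℂ)) P = 0

theorem trunc_eq : ∀ l m, trunc l m = Pool.Agent.Y760.ZG.hr l m := by
  intro l
  induction l with
  | nil => intro m; rw [trunc, Pool.Agent.Y760.ZG.hr]
  | cons s l ih =>
    intro m
    rw [trunc, Pool.Agent.Y760.ZG.hr]
    exact Finset.sum_congr rfl fun j _ => by rw [ih]

theorem mzv_eq : ∀ l, mzv l = Pool.Agent.Y760.ZG.mz l := by
  intro l
  cases l with
  | nil => rw [mzv, Pool.Agent.Y760.ZG.mz]
  | cons s l =>
    rw [mzv, Pool.Agent.Y760.ZG.mz]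
    exact tsum_congr fun k => by rw [trunc_eq]

/-- **Algebraic independence over arbitrary constants.** Let `a_1, …, a_r` be nonconstant linear
forms in `k` variables and `l_1, …, l_r` lists of positive integers, the pairs `(a_i, l_i)`
different, and `t, D, κ` natural numbers. There is `K` such that for all real `C`, all complex numbers
`x_1, …, x_t` and all sufficiently large `N` at most `K N ^ (k - 1)` of the tuples `s ∈ [N, κ N] ^ k`
have an integer polynomial `P` of total degree at most `D` with coefficients of absolute value at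
most `C ^ N` such that `P(x, ζ(a_1(s), l_1), …, ζ(a_r(s), l_r)) = 0` and `P(x, Y) ≠ 0`. -/
theorem result (t k r D κ : ℕ) (a : Fin r → ℕ × (Fin k → ℕ)) (l : Fin r → List ℕ)
    (ha : ∀ i, (a i).2 ≠ 0) (hl : ∀ i, ∀ c ∈ l i, 1 ≤ c)
    (hne : ∀ i j, a i = a j → l i = l j → i = j) :
    ∃ K : ℕ, ∀ (C : ℝ) (x : Fin t → ℂ), ∃ N0 : ℕ, ∀ N : ℕ, N0 ≤ N →
      {s : Fin k → ℕ | (∀ j, N ≤ s j ∧ s j ≤ κ * N) ∧ Dependent x a l D (C ^ N) s}.Finite ∧
      {s : Fin k → ℕ | (∀ j, N ≤ s j ∧ s j ≤ κ * N) ∧ Dependent x a l D (C ^ N) s}.ncard ≤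
        K * N ^ (k - 1) := by
  classical
  obtain ⟨K, hK⟩ := Pool.Agent.X90.DJ.main t k r D a l ha hl hne κ
  refine ⟨K, fun C x => ?_⟩
  obtain ⟨N0, hN0⟩ := hK C x
  refine ⟨N0, fun N hN => ?_⟩
  have hfin : {s : Fin k → ℕ | (∀ j, N ≤ s j ∧ s j ≤ κ * N) ∧
      Dependent x a l D (C ^ N) s}.Finite := by
    refine (Fintype.piFinset fun _ : Fin k => Finset.Icc N (κ * N)).finite_toSet.subset ?_
    rintro s ⟨hs, -⟩
    rw [Finset.mem_coe, Fintype.mem_piFinset]
    exact fun j => Finset.mem_Icc.2 (hs j)
  refine ⟨hfin, ?_⟩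
  rw [Set.ncard_eq_toFinset_card _ hfin]
  refine hN0 N hN hfin.toFinset fun s hs => ?_
  rw [Set.Finite.mem_toFinset] at hs
  obtain ⟨hs, P, hPD, hPC, hne, hP0⟩ := hs
  refine ⟨hs, P, hPD, hPC, hne, ?_⟩
  rw [← hP0]
  congr 2
  funext i
  rcases i with i | i
  · rfl
  · simp only [Sum.elim_inr]
    rw [Pool.Agent.X90.DJ.ix_pw, mzv_eq]
    rfl

end Pool.Agent.Results.MP_f3dc73_nt.IndependenceOverConstants
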