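import Pool.Agent.Results.MP_f3dc73_nt.IndependenceOverConstants
import Pool.Agent.X174.WinInd

/-!
# Multiple zeta values with one large argument are algebraically independent over constants, ALL arguments in cubes

Let `ξ_1, ξ_2, …` be any sequence of complex numbers, for example `2 π i` and all multiple zeta values, `v ≥ 1` a sequence of
exponent of convergence at most `τ` (for `v_i = (i + 1) ^ a` this is `1 / a`, for `v_i = b ^ i` it is `0`) and `ρ < 1`. There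
is ONE set `E ⊂ ℝ^k` of Hausdorff dimension at most `(k - 1 + τ) / (1 - ρ)` such that for each `x` outside `E` with positive
coordinates, all nonconstant linear forms `a_1, …, a_r` in `k` variables with natural coefficients and all lists
`l_1, …, l_r` of positive integers, the pairs `(a_i, l_i)` different, all `t`, `D` and `C`, for all but finitely many `i`:
for ALL natural numbers `s_1, …, s_k` with `|s_j - x_j v_i| ≤ v_i ^ ρ` the multiple zeta values
`ζ(a_1(s), l_1), …, ζ(a_r(s), l_r)` satisfy no algebraic relation of degree at most `D` with integral coefficients of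
absolute value at most `C ^ v_i` over `ℤ[ξ_1, …, ξ_t]`. For `k = 1` for instance the `2 ^ (W + 1) - 1` numbers
`ζ(n + b, l)`, `b + |l| ≤ W`, for all `n` in the windows around the `x v_i`.

The number of exceptions is from the result `IndependenceOverConstants` of helper90.
-/

set_option autoImplicit false

namespace Pool.Agent.Results.MP_f3dc73_nt.IndicesInCubes

open IndependenceOverConstants (mzv form substX Dependent)

/-- the exponent of convergence of the sequence `v` is at most `τ` -/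
def ExpLe (v : ℕ → ℝ) (τ : ℝ) : Prop := ∀ t : ℝ, τ < t → Summable (fun n : ℕ => (v n) ^ (-t))

/-- **Theorem.** Let `ξ_0, ξ_1, …` be complex numbers and `k ≥ 1`. For every sequence `v ≥ 1` of exponent of convergence at
most `τ ≥ 0` and every `ρ < 1` there is a set `E ⊂ ℝ^k` of Hausdorff dimension at most `(k - 1 + τ) / (1 - ρ)` such that for
each `x` outside `E` with positive coordinates, all nonconstant linear forms `a_1, …, a_r` and lists `l_1, …, l_r` of positive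
integers, the pairs `(a_i, l_i)` different, all `t`, `D` and `C ≥ 1`, for all but finitely many `i`, ALL `s ∈ ℕ^k` with
`|s_j - x_j v_i| ≤ v_i ^ ρ` have the property: each integer polynomial `P` in `t + r` variables of total degree at most `D`
with coefficients of absolute value at most `C ^ v_i` and `P(ξ, ζ(a_1(s), l_1), …, ζ(a_r(s), l_r)) = 0` satisfies
`P(ξ, Y) = 0` in `ℂ[Y_1, …, Y_r]`. The sequences `v_i = (i + 1) ^ a` and `v_i = b ^ i` have exponent of convergence at most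
`1 / a` and `0`. -/
theorem result :
    (∀ (ξ : ℕ → ℂ) (k : ℕ), 1 ≤ k → ∀ (v : ℕ → ℝ) (τ ρ : ℝ), (∀ i, 1 ≤ v i) → 0 ≤ τ → ExpLe v τ → ρ < 1 →
      ∃ E : Set (Fin k → ℝ), dimH E ≤ ENNReal.ofReal (((k : ℝ) - 1 + τ) / (1 - ρ)) ∧
        ∀ x : Fin k → ℝ, x ∉ E → (∀ j, 0 < x j) →
          ∀ (r : ℕ) (a : Fin r → ℕ × (Fin k → ℕ)) (l : Fin r → List ℕ), (∀ i, (a i).2 ≠ 0) →
            (∀ i, ∀ c ∈ l i, 1 ≤ c) → (∀ i j, a i = a j → l i = l j → i = j) →
            ∀ (t D : ℕ) (C : ℝ), 1 ≤ C → ∃ i₀ : ℕ, ∀ i : ℕ, i₀ ≤ i →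
              ∀ s : Fin k → ℕ, (∀ j, |(s j : ℝ) - x j * v i| ≤ (v i) ^ ρ) →
                ∀ P : MvPolynomial (Fin t ⊕ Fin r) ℤ, P.totalDegree ≤ D → (∀ m, |((P.coeff m : ℤ) : ℝ)| ≤ C ^ (v i)) →
                  MvPolynomial.aeval (Sum.elim (fun b : Fin t => ξ b) fun i => ((mzv (form (a i) s :: l i) : ℝ) : ℂ)) P = 0 →
                  substX (fun b : Fin t => ξ b) P = 0) ∧
    (∀ a : ℝ, 0 < a → ExpLe (fun n : ℕ => ((n : ℝ) + 1) ^ a) (1 / a)) ∧
    (∀ b : ℝ, 1 < b → ExpLe (fun n : ℕ => b ^ n) 0) := by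
  refine ⟨fun ξ k hk v τ ρ hv hτ hE hρ => ?_,
    fun κ hκ => Pool.Agent.Y854.GM.expLe_pow κ hκ, fun b hb => Pool.Agent.Y854.GM.expLe_geom b hb⟩
  have key : ∀ z : ℕ × ℕ × ((r : ℕ) × ((Fin r → ℕ × (Fin k → ℕ)) × (Fin r → List ℕ))), ∃ E : Set (Fin k → ℝ),
      dimH E ≤ ENNReal.ofReal (((k : ℝ) - 1 + τ) / (1 - ρ)) ∧
      ((∀ i, (z.2.2.2.1 i).2 ≠ 0) → (∀ i, ∀ c ∈ z.2.2.2.2 i, 1 ≤ c) →
        (∀ i j, z.2.2.2.1 i = z.2.2.2.1 j → z.2.2.2.2 i = z.2.2.2.2 j → i = j) →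
        ∀ x : Fin k → ℝ, x ∉ E → (∀ j, 0 < x j) → ∀ C : ℝ, 1 ≤ C → ∃ i₀ : ℕ, ∀ i : ℕ, i₀ ≤ i → ∀ s : Fin k → ℕ,
          (∀ j, |(s j : ℝ) - x j * v i| ≤ (v i) ^ ρ) →
            ¬ Dependent (fun b : Fin z.1 => ξ b) z.2.2.2.1 z.2.2.2.2 z.2.1 (C ^ (v i)) s) := by
    rintro ⟨t, D, r, a, l⟩
    dsimp only
    by_cases hw : (∀ i, (a i).2 ≠ 0) ∧ (∀ i, ∀ c ∈ l i, 1 ≤ c) ∧ ∀ i j, a i = a j → l i = l j → i = j
    · obtain ⟨E, h1, h2⟩ := Pool.Agent.X174.winInd hk (fun H s => Dependent (fun b : Fin t => ξ b) a l D H s)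
        (fun H H' s hH ⟨P, hP, hc, h3⟩ => ⟨P, hP, fun m => (hc m).trans hH, h3⟩)
        (fun κ => by
          obtain ⟨K, hK⟩ := IndependenceOverConstants.result t k r D κ a l hw.1 hw.2.1 hw.2.2
          refine ⟨K, fun C => ?_⟩
          obtain ⟨N0, hN0⟩ := hK C (fun b : Fin t => ξ b)
          exact ⟨N0, fun N hN => (hN0 N hN).2⟩) hv hτ hE hρ
      exact ⟨E, h1, fun _ _ _ => h2⟩
    · exact ⟨∅, by simp, fun h h' h'' => absurd ⟨h, h', h''⟩ hw⟩
  choose Es h1 h2 using key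
  refine ⟨⋃ z, Es z, ?_, fun x hx hx0 r a l ha hl hal t D C hC => ?_⟩
  · rw [dimH_iUnion]
    exact iSup_le h1
  · obtain ⟨i₀, hi₀⟩ := h2 ⟨t, D, r, a, l⟩ ha hl hal x (fun hm => hx (Set.mem_iUnion.2 ⟨_, hm⟩)) hx0 C hC
    refine ⟨i₀, fun i hi s hs P hP hPc hP0 => ?_⟩
    by_contra hne
    exact hi₀ i hi s hs ⟨P, hP, hPc, hne, hP0⟩

end Pool.Agent.Results.MP_f3dc73_nt.IndicesInCubes
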